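import Pool.Agent.H637.SqC.Neg
import Pool.Agent.H637.SqC.WC

/-!
# `MP_be203f_lc`, Q1: yes

If there is a weakly compact cardinal, then after adding one Cohen real there is a cardinal `κ`
which is `κ`-square compact but not `2 ^ κ`-square compact (with `2 ^ κ` computed in the ground
model).  The definitions are in `Pool/Agent/H637/SqC/Defs.lean`, and those of the forcing language
in `Pool/Graph/R_seed8/Helper292/SP/Lang.lean`.

The ground model is the universe of sets `Type`.  If `κ` is the least weakly compact cardinal then
there is no countably complete nonprincipal ultrafilter on `κ`.  In the extension the space is the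
disjoint union of two copies of the set of all ground model functions from `κ → ω` to `ω + 1`; the
neighbourhoods of the point at infinity of `ω + 1` are given by the Cohen real in the first copy and
by its complement in the second copy.
-/

set_option autoImplicit false

namespace Pool.Agent.Results.MP_be203f_lc.CohenSeparation

open Cardinal Pool.Agent.Helper292.SP Pool.Agent.H637.SqC Pool.Agent.H637.F

/-- If there is a weakly compact cardinal, then there is an uncountable cardinal `κ` such that
Cohen forcing forces: `κ` and `2 ^ κ` (of the ground model) are cardinals, `κ` is `κ`-square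
compact, and `κ` is not `2 ^ κ`-square compact. -/
theorem result (h : ∃ κ : Cardinal.{0}, IsWeaklyCompact κ) :
    ∃ κ : Cardinal.{0}, ℵ₀ < κ ∧ ∀ p : Cohen,
      p ∈ IsCard Cohen κ.ord.ToType ∧ p ∈ IsCard Cohen ((2 : Cardinal.{0}) ^ κ).ord.ToType ∧
      p ∈ SquareCompactN Cohen κ.ord.ToType κ.ord.ToType ∧
      p ∈ fnot (SquareCompactN Cohen κ.ord.ToType ((2 : Cardinal.{0}) ^ κ).ord.ToType) := by
  obtain ⟨κ, hκ, hFP, hU⟩ := exists_fp h
  have hP : #Cohen < κ := (Cardinal.mk_le_aleph0).trans_lt hκ
  refine ⟨κ, hκ, fun p => ⟨isCard_small hκ.le hP p, ?_, square_pos hκ hFP hP p, ?_⟩⟩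
  · exact isCard_small (hκ.le.trans (Cardinal.cantor κ).le) (hP.trans (Cardinal.cantor κ)) p
  · intro q _ hq
    obtain ⟨e⟩ : Nonempty (((2 : Cardinal.{0}) ^ κ).ord.ToType ≃
        Finset (Cn (κ.ord.ToType → ℕ))) := by
      rw [← Cardinal.eq, mk_base hκ.le, Cardinal.mk_toType, Cardinal.card_ord]
    have h1 := hq (Pt (κ.ord.ToType → ℕ)) fun m x => Bs (e m) x
    obtain ⟨r, _, h2⟩ := mem_fimp.1 h1 q le_rfl ⟨base e e.surjective q, lindelof hκ e q⟩
    exact square_neg hκ hFP hU e e.surjective r h2

end Pool.Agent.Results.MP_be203f_lc.CohenSeparation
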